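import Pool.Agent.Helper68.QS.St1
import Pool.Agent.Helper71.TU.X5aux

/-!
# QS module AUD: automorphisms of the disc.  The first part is taken from helper24's proof of RAU.
-/

set_option autoImplicit false

namespace Pool.Agent.Helper9.QS

open Pool.Agent.Helper68.QS Pool.Agent.Helper68.QC
open Pool.Agent.Helper61.QE (D Dx rf SU Fu FD Ab sy nuT muT syX syY Kap En Et)
open MeasureTheory Set Filter Topology Complex Matrix Metric
open scoped ContDiff ComplexConjugate ENNReal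

private noncomputable def Bm (a w : ℂ) : ℂ := (w - a) / (1 - conj a * w)

private lemma nsq (a w : ℂ) : ‖1 - conj a * w‖ ^ 2 - ‖w - a‖ ^ 2 = (1 - ‖a‖ ^ 2) * (1 - ‖w‖ ^ 2) := by
  simp only [Complex.sq_norm, Complex.normSq_apply, Complex.sub_re, Complex.sub_im, Complex.mul_re,
    Complex.mul_im, Complex.one_re, Complex.one_im, Complex.conj_re, Complex.conj_im]
  ring

private lemma dne {a w : ℂ} (ha : ‖a‖ < 1) (hw : ‖w‖ < 1) : 1 - conj a * w ≠ 0 := by
  intro h
  have h1 : conj a * w = 1 := by linear_combination -h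
  have h2 : ‖conj a * w‖ = 1 := by rw [h1, norm_one]
  rw [norm_mul, RCLike.norm_conj] at h2
  have := norm_nonneg a
  have := norm_nonneg w
  nlinarith

private lemma Bm_lt {a w : ℂ} (ha : ‖a‖ < 1) (hw : ‖w‖ < 1) : ‖Bm a w‖ < 1 := by
  have h0 := dne ha hw
  rw [Bm, norm_div, div_lt_one (norm_pos_iff.2 h0)]
  have h1 := nsq a w
  have h2 : 0 < (1 - ‖a‖ ^ 2) * (1 - ‖w‖ ^ 2) := by
    have := norm_nonneg a
    have := norm_nonneg w
    apply mul_pos <;> nlinarith
  apply lt_of_pow_lt_pow_left₀ 2 (norm_nonneg _)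
  linarith

private lemma Bm_Bm {a w : ℂ} (ha : ‖a‖ < 1) (hw : ‖w‖ < 1) : Bm (-a) (Bm a w) = w := by
  have h0 := dne ha hw
  have h1 : 1 - conj a * a ≠ 0 := dne ha ha
  have hB : Bm a w * (1 - conj a * w) = w - a := div_mul_cancel₀ _ h0
  have e : 1 - conj (-a) * Bm a w = (1 - conj a * a) / (1 - conj a * w) := by
    rw [eq_div_iff h0, map_neg]
    linear_combination conj a * hB
  have e2 : Bm a w - -a = w * (1 - conj a * a) / (1 - conj a * w) := by
    rw [eq_div_iff h0]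
    linear_combination hB
  rw [Bm, e, e2, div_div_div_cancel_right₀ h0, mul_div_assoc, div_self h1, mul_one]

private lemma Bm_diff {a : ℂ} (ha : ‖a‖ < 1) {f : ℂ → ℂ} (hf : DifferentiableOn ℂ f D)
    (hm : MapsTo f D D) : DifferentiableOn ℂ (fun z => Bm a (f z)) D := by
  intro z hz
  have h0 : 1 - conj a * f z ≠ 0 := dne ha (by simpa using hm hz)
  exact ((hf z hz).sub_const a).div (((hf z hz).const_mul _).const_sub 1) h0

private lemma autD {h : ℂ → ℂ} (hd : DifferentiableOn ℂ h D) (hi : InjOn h D) (hs : h '' D = D)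
    (hne : ∀ z ∈ D, deriv h z ≠ 0) :
    ∃ a c : ℂ, ‖a‖ < 1 ∧ ‖c‖ = 1 ∧ ∀ z ∈ D, h z = (c * z + a) / (1 + conj a * (c * z)) := by
  have hm : MapsTo h D D := fun z hz => by rw [← hs]; exact mem_image_of_mem h hz
  have z0 : (0 : ℂ) ∈ D := by simp
  set a := h 0 with hadef
  have ha : ‖a‖ < 1 := by simpa using hm z0
  have ha' : ‖-a‖ < 1 := by rwa [norm_neg]
  set g := Function.invFunOn h D with hg
  have gl : ∀ z ∈ D, g (h z) = z := fun z hz => hi.leftInvOn_invFunOn hz
  have gm : MapsTo g D D := by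
    intro w hw
    rw [← hs] at hw
    obtain ⟨z, hz, rfl⟩ := hw
    rw [gl z hz]
    exact hz
  have gd : DifferentiableOn ℂ g D := by
    intro w hw
    have hw' := hw
    rw [← hs] at hw'
    obtain ⟨z, hz, rfl⟩ := hw'
    have h1 : AnalyticAt ℂ h z := hd.analyticAt (isOpen_ball.mem_nhds hz)
    have h2 : HasStrictDerivAt h (deriv h z) z := h1.hasStrictDerivAt
    have h3 : ∀ᶠ x in 𝓝 z, g (h x) = x := by
      filter_upwards [isOpen_ball.mem_nhds hz] with x hx
      exact gl x hx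
    exact (h2.to_local_left_inverse (hne z hz) h3).hasDerivAt.differentiableAt.differentiableWithinAt
  have Fd : DifferentiableOn ℂ (fun z => Bm a (h z)) D := Bm_diff ha hd hm
  have Fm : MapsTo (fun z => Bm a (h z)) D D := fun z hz => by
    have : ‖Bm a (h z)‖ < 1 := Bm_lt ha (by simpa using hm hz)
    simpa using this
  have F0 : (fun z => Bm a (h z)) 0 = 0 := by
    simp [Bm, ← hadef]
  have idm : MapsTo (fun w : ℂ => Bm (-a) w) D D := fun z hz => by
    have : ‖Bm (-a) z‖ < 1 := Bm_lt ha' (by simpa using hz)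
    simpa using this
  have Gd : DifferentiableOn ℂ (fun w => g (Bm (-a) w)) D :=
    gd.comp (Bm_diff ha' differentiableOn_id (fun z hz => hz)) idm
  have Gm : MapsTo (fun w => g (Bm (-a) w)) D D := fun z hz => gm (idm hz)
  have G0 : (fun w => g (Bm (-a) w)) 0 = 0 := by
    have e : Bm (-a) 0 = h 0 := by simp [Bm, ← hadef]
    change g (Bm (-a) 0) = 0
    rw [e]
    exact gl 0 z0
  have hF : ∀ z ∈ D, ‖Bm a (h z)‖ = ‖z‖ := by
    intro z hz
    have hz1 : ‖z‖ < 1 := by simpa using hz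
    have i1 : ‖Bm a (h z)‖ ≤ ‖z‖ :=
      Complex.norm_le_norm_of_mapsTo_ball Fd (Fm.mono_right ball_subset_closedBall) F0 hz1
    have i2 : ‖g (Bm (-a) (Bm a (h z)))‖ ≤ ‖Bm a (h z)‖ :=
      Complex.norm_le_norm_of_mapsTo_ball Gd (Gm.mono_right ball_subset_closedBall) G0
        (by simpa using Fm hz)
    rw [Bm_Bm ha (by simpa using hm hz), gl z hz] at i2
    exact le_antisymm i1 i2
  have half : (1 / 2 : ℂ) ∈ D := by
    have : ‖(1 / 2 : ℂ)‖ < 1 := by norm_num
    simpa using this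
  obtain ⟨c, hc1, hc2⟩ := Complex.affine_of_mapsTo_ball_of_exists_norm_dslope_eq_div' (R₂ := 1) Fd
    (by
      have F0' : Bm a (h 0) = 0 := F0
      change MapsTo _ (ball 0 1) (closedBall (Bm a (h 0)) 1)
      rw [F0']
      exact Fm.mono_right ball_subset_closedBall) ⟨1 / 2, half, by
      rw [dslope_of_ne _ (by norm_num), slope_def_module, norm_smul]
      have e : (fun z => Bm a (h z)) (1 / 2) - (fun z => Bm a (h z)) 0 = Bm a (h (1 / 2)) := by
        rw [F0, sub_zero]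
      rw [e, hF _ half]
      norm_num⟩
  refine ⟨a, c, ha, by simpa using hc1, fun z hz => ?_⟩
  have e1 : Bm a (h z) = c * z := by
    have := hc2 hz
    change Bm a (h z) = (fun z => Bm a (h z)) 0 + (z - 0) • c at this
    rw [F0, zero_add, sub_zero, smul_eq_mul, mul_comm] at this
    exact this
  have e2 := Bm_Bm ha (w := h z) (by simpa using hm hz)
  rw [e1] at e2
  rw [← e2, Bm, map_neg]
  congr 1 <;> ring

private noncomputable def AA (k : ℝ) (a s : ℂ) : Matrix (Fin 2) (Fin 2) ℂ :=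
  !![k * s, k * (a * conj s); k * (conj a * s), k * conj s]

private lemma detAA {k : ℝ} {a s : ℂ} (hk : k ^ 2 * (1 - ‖a‖ ^ 2) = 1) (hs : ‖s‖ = 1) :
    (AA k a s).det = 1 := by
  have h1 : s * conj s = 1 := by
    rw [Complex.mul_conj, Complex.normSq_eq_norm_sq, hs]
    norm_num
  have h2 : a * conj a = ((‖a‖ ^ 2 : ℝ) : ℂ) := by
    rw [Complex.mul_conj, Complex.normSq_eq_norm_sq]
  have h3 : ((k : ℂ)) ^ 2 * (1 - ((‖a‖ ^ 2 : ℝ) : ℂ)) = 1 := by
    exact_mod_cast hk
  rw [AA, det_fin_two_of]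
  linear_combination h3 + (k : ℂ) ^ 2 * (1 - a * conj a) * h1 - (k : ℂ) ^ 2 * h2

private lemma propAA {k : ℝ} {a s : ℂ} (hk : k ^ 2 * (1 - ‖a‖ ^ 2) = 1) (hs : ‖s‖ = 1)
    {A : SL} (hA : (A : Matrix (Fin 2) (Fin 2) ℂ) = AA k a s) :
    SU A ∧ (∀ z, den A z = k * (conj a * s * z + conj s)) ∧
      ∀ z : ℂ, mob A z = (s ^ 2 * z + a) / (1 + conj a * (s ^ 2 * z)) := by
  have k0 : (k : ℂ) ≠ 0 := by
    intro h
    have : k = 0 := by exact_mod_cast h
    rw [this] at hk
    norm_num at hk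
  have h1 : s * conj s = 1 := by
    rw [Complex.mul_conj, Complex.normSq_eq_norm_sq, hs]
    norm_num
  have s0 : s ≠ 0 := by
    intro h
    rw [h, zero_mul] at h1
    exact zero_ne_one h1
  refine ⟨⟨?_, ?_⟩, ?_, ?_⟩
  · rw [hA]
    simp [AA]
  · rw [hA]
    simp [AA]
  · intro z
    rw [den, hA]
    simp [AA]
    ring
  · intro z
    rw [mob, den, hA]
    simp only [AA, of_apply, cons_val', cons_val_zero, cons_val_one, cons_val_fin_one]
    have e1 : (k : ℂ) * s * z + k * (a * conj s) = (k * conj s) * (s ^ 2 * z + a) := by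
      linear_combination -(k : ℂ) * s * z * h1
    have e2 : (k : ℂ) * (conj a * s) * z + k * conj s = (k * conj s) * (1 + conj a * (s ^ 2 * z)) := by
      linear_combination -(k : ℂ) * conj a * s * z * h1
    have c0 : (k : ℂ) * conj s ≠ 0 := mul_ne_zero k0 (by simpa using s0)
    rw [e1, e2, mul_div_mul_left _ _ c0]

theorem pAUD : Pool.Agent.Helper68.QS.StAUD := by
  intro h hd hi hs
  have hne : ∀ z ∈ D, deriv h z ≠ 0 := fun z hz =>
    Pool.TU.X5.deriv_ne_zero_of_injOn isOpen_ball hd hi hz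
  obtain ⟨a, c, ha, hc, hh⟩ := autD hd hi hs hne
  obtain ⟨s, hs2⟩ := IsAlgClosed.exists_pow_nat_eq c (n := 2) (by norm_num)
  have hs1 : ‖s‖ = 1 := by
    have h1 : ‖s‖ ^ 2 = 1 := by rw [← norm_pow, hs2, hc]
    have := norm_nonneg s
    nlinarith
  have hpos : 0 < 1 - ‖a‖ ^ 2 := by
    have := norm_nonneg a
    nlinarith
  set k : ℝ := (Real.sqrt (1 - ‖a‖ ^ 2))⁻¹ with hkdef
  have hk : k ^ 2 * (1 - ‖a‖ ^ 2) = 1 := by
    rw [hkdef, inv_pow, Real.sq_sqrt hpos.le]
    field_simp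
  let A : SL := ⟨AA k a s, detAA hk hs1⟩
  obtain ⟨a1, a2, a3⟩ := propAA hk hs1 (A := A) rfl
  refine ⟨A, a1, fun z hz => ?_⟩
  rw [a3, hh z hz, hs2]

end Pool.Agent.Helper9.QS
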